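import Pool.Agent.W957.CH.Stm2

/-! Project CH (MP_d275fd_co, S11629), CH-NUM: existence of levels. -/

namespace Pool.Agent.W924.CH

open Pool.Agent.W957.CH

theorem mu_mono {m m' : ℕ} (h : m ≤ m') : mu m ≤ mu m' := by
  unfold mu
  omega

theorem Lam_mono {m m' : ℕ} (h : m ≤ m') : Lam m ≤ Lam m' := by
  unfold Lam
  have h1 := mu_mono h
  exact Nat.mul_le_mul (Nat.pow_le_pow_right (by norm_num) (Nat.mul_le_mul_left _ h1))
    (Nat.mul_le_mul_left _ h1)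

theorem beta_mono {m m' t t' : ℕ} (h : m ≤ m') (ht : t ≤ t') : beta m t ≤ beta m' t' := by
  unfold beta
  have h1 := mu_mono h
  have h2 := Lam_mono h
  gcongr

theorem UU_mono {m m' b b' : ℕ} (h : m ≤ m') (hb : b ≤ b') : UU m b ≤ UU m' b' := by
  unfold UU
  have h1 := beta_mono h hb
  gcongr

theorem rho_mono1 {r r' t t' : ℕ} (hr : r ≤ r') (ht : t ≤ t') (u : ℕ) :
    rho r t u ≤ rho r' t' u := by
  induction u with
  | zero =>
    show t + 1 ≤ t' + 1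
    omega
  | succ u ih =>
    show 2 * rho r t u + r + 2 * t + 4 ≤ 2 * rho r' t' u + r' + 2 * t' + 4
    omega

theorem rho_mono2 (r t : ℕ) : Monotone (rho r t) := by
  refine monotone_nat_of_le_succ fun u => ?_
  show rho r t u ≤ 2 * rho r t u + r + 2 * t + 4
  omega

theorem rho_mono {r r' t t' u u' : ℕ} (hr : r ≤ r') (ht : t ≤ t') (hu : u ≤ u') :
    rho r t u ≤ rho r' t' u' :=
  (rho_mono1 hr ht u).trans (rho_mono2 r' t' hu)

def Qa (k a : ℕ) : ℕ := 2 * (3 * a + 18) + (3 * mu k + 1) * (a + 5) + 2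

def H (k a : ℕ) : ℕ := (UU k (k + 2) + mu k + 2) *
  (2 * mu k * ((UU k (k + 2) + 2) * ((a + 1) * Qa k a) + 1)) *
  (k * (2 * a + 2) + 2 + rho (k * (2 * a + 2)) a (UU k (k + 2)))

theorem key {m k τ σ a b B s : ℕ} (hm : m ≤ k) (ht : τ ≤ a) (hs : σ ≤ a) (hb : b ≤ k + 2)
    (hB : B ≤ k) :
    (UU m b + mu m + 2) * (2 * mu m * ((UU m b + 2) * ((τ + 1) *
      (2 * ((3 * σ + 18) * (s + 1)) + (3 * mu m + 1) * (σ + 5) + 2)) + 1)) *
      (B * (σ + τ + 2) + 2 + rho (B * (σ + τ + 2)) τ (UU m b)) ≤ H k a * (s + 1) := by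
  have h1 := mu_mono hm
  have h2 : UU m b ≤ UU k (k + 2) := UU_mono hm hb
  have h3 : B * (σ + τ + 2) ≤ k * (2 * a + 2) := Nat.mul_le_mul hB (by omega)
  have h4 := rho_mono h3 ht h2
  have h5 : 2 * ((3 * σ + 18) * (s + 1)) + (3 * mu m + 1) * (σ + 5) + 2 ≤
      Qa k a * (s + 1) := by
    unfold Qa
    have e1 : (3 * σ + 18) * (s + 1) ≤ (3 * a + 18) * (s + 1) :=
      Nat.mul_le_mul_right _ (by omega)
    have e2 : (3 * mu m + 1) * (σ + 5) ≤ (3 * mu k + 1) * (a + 5) :=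
      Nat.mul_le_mul (by omega) (by omega)
    have e3 : (3 * mu k + 1) * (a + 5) ≤ (3 * mu k + 1) * (a + 5) * (s + 1) :=
      Nat.le_mul_of_pos_right _ (by omega)
    have e4 : (2 * (3 * a + 18) + (3 * mu k + 1) * (a + 5) + 2) * (s + 1) =
      2 * ((3 * a + 18) * (s + 1)) + (3 * mu k + 1) * (a + 5) * (s + 1) + 2 * (s + 1) := by ring
    rw [e4]
    omega
  have h6 : 2 * mu m * ((UU m b + 2) * ((τ + 1) *
      (2 * ((3 * σ + 18) * (s + 1)) + (3 * mu m + 1) * (σ + 5) + 2)) + 1) ≤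
      (2 * mu k * ((UU k (k + 2) + 2) * ((a + 1) * Qa k a) + 1)) * (s + 1) := by
    have e1 : (UU m b + 2) * ((τ + 1) *
        (2 * ((3 * σ + 18) * (s + 1)) + (3 * mu m + 1) * (σ + 5) + 2)) + 1 ≤
        ((UU k (k + 2) + 2) * ((a + 1) * Qa k a) + 1) * (s + 1) := by
      have e2 : (UU m b + 2) * ((τ + 1) *
        (2 * ((3 * σ + 18) * (s + 1)) + (3 * mu m + 1) * (σ + 5) + 2)) ≤
        (UU k (k + 2) + 2) * ((a + 1) * (Qa k a * (s + 1))) :=
        Nat.mul_le_mul (by omega) (Nat.mul_le_mul (by omega) h5)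
      have e3 : ((UU k (k + 2) + 2) * ((a + 1) * Qa k a) + 1) * (s + 1) =
        (UU k (k + 2) + 2) * ((a + 1) * (Qa k a * (s + 1))) + (s + 1) := by ring
      rw [e3]
      omega
    calc _ ≤ 2 * mu k * (((UU k (k + 2) + 2) * ((a + 1) * Qa k a) + 1) * (s + 1)) :=
          Nat.mul_le_mul (Nat.mul_le_mul_left _ h1) e1
      _ = _ := by ring
  have h7 : B * (σ + τ + 2) + 2 + rho (B * (σ + τ + 2)) τ (UU m b) ≤
      k * (2 * a + 2) + 2 + rho (k * (2 * a + 2)) a (UU k (k + 2)) := by omega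
  have h8 : UU m b + mu m + 2 ≤ UU k (k + 2) + mu k + 2 := by omega
  calc _ ≤ (UU k (k + 2) + mu k + 2) *
        ((2 * mu k * ((UU k (k + 2) + 2) * ((a + 1) * Qa k a) + 1)) * (s + 1)) *
        (k * (2 * a + 2) + 2 + rho (k * (2 * a + 2)) a (UU k (k + 2))) :=
        Nat.mul_le_mul (Nat.mul_le_mul h8 h6) h7
    _ = _ := by
      unfold H
      ring

/-- the bracket -/
def Hb (k a : ℕ) : ℕ := H k a + 64 * (100 * mu k + 100) + 100 * k + 64

/-- the levels -/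
def Nn : ℕ → ℕ
  | 0 => 4
  | j + 1 => Nn j + 1 + 2 ^ (18 * (j + 3)) * (Hb (j + 2) (Nn j)) ^ 2 * 16

theorem Nn_succ (j : ℕ) :
    Nn (j + 1) = Nn j + 1 + 2 ^ (18 * (j + 3)) * (Hb (j + 2) (Nn j)) ^ 2 * 16 := rfl

theorem Nn_strict : StrictMono Nn := by
  refine strictMono_nat_of_lt_succ fun j => ?_
  rw [Nn_succ]
  omega

/-- the bound which has to be reached for the value `m` -/
def g (m : ℕ) : ℕ := bb m (Nn (4 * beta m 0)) + 5

theorem g_ge (m : ℕ) : 8 * m + 5 ≤ g m := by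
  unfold g bb mu
  omega

/-- the slow function -/
def F (k : ℕ) : ℕ := Nat.findGreatest (fun m => g m ≤ k) k

theorem F_spec {k : ℕ} (h : F k ≠ 0) : g (F k) ≤ k :=
  Nat.findGreatest_of_ne_zero (P := fun m => g m ≤ k) (n := k) rfl h

theorem F_le (k : ℕ) : F k ≤ k := Nat.findGreatest_le k

theorem F_mono : Monotone F := by
  intro k k' h
  exact Nat.findGreatest_mono (fun m hm => le_trans hm h) h

theorem F_tendsto : Filter.Tendsto F Filter.atTop Filter.atTop := by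
  rw [Filter.tendsto_atTop]
  intro M
  filter_upwards [Filter.eventually_ge_atTop (max (g M) M)] with k hk
  exact Nat.le_findGreatest ((le_max_right _ _).trans hk) ((le_max_left _ _).trans hk)

theorem F_four : F 4 = 0 := by
  by_contra h
  have h1 := F_spec h
  have h2 := g_ge (F 4)
  omega

theorem F_half (h : ℕ) : F (2 * h) ≤ h := by
  by_cases h0 : F (2 * h) = 0
  · omega
  · have h1 := F_spec h0
    have h2 := g_ge (F (2 * h))
    omega

theorem log_bd (L : ℕ) : (L + 2) ^ 2 ≤ 16 * 2 ^ L := by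
  induction L with
  | zero => norm_num
  | succ L ih =>
    have e : (2 : ℕ) ^ (L + 1) = 2 * 2 ^ L := by ring
    rw [e]
    rcases L with _ | L
    · norm_num
    · have e2 : (L + 1 + 1 + 2) ^ 2 ≤ 2 * (L + 1 + 2) ^ 2 := by
        have e3 : 2 * (L + 1 + 2) ^ 2 = (L + 1 + 1 + 2) ^ 2 + (L ^ 2 + 4 * L + 2) := by ring
        rw [e3]
        exact Nat.le_add_right _ _
      calc (L + 1 + 1 + 2) ^ 2 ≤ 2 * (L + 1 + 2) ^ 2 := e2
        _ ≤ 2 * (16 * 2 ^ (L + 1)) := Nat.mul_le_mul_left _ ih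
        _ = 16 * (2 * 2 ^ (L + 1)) := by ring

theorem fin_bd {h n : ℕ} (h1 : 16 * h ^ 2 ≤ n) (hn : n ≠ 0) : h * (Nat.log 2 n + 1 + 1) ≤ n := by
  have h2 := log_bd (Nat.log 2 n)
  have h3 : 2 ^ Nat.log 2 n ≤ n := Nat.pow_log_le_self 2 hn
  have h4 : (h * (Nat.log 2 n + 1 + 1)) ^ 2 ≤ n ^ 2 := by
    have e : (h * (Nat.log 2 n + 1 + 1)) ^ 2 = h ^ 2 * (Nat.log 2 n + 2) ^ 2 := by ring
    rw [e]
    calc h ^ 2 * (Nat.log 2 n + 2) ^ 2 ≤ h ^ 2 * (16 * n) :=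
          Nat.mul_le_mul_left _ (h2.trans (Nat.mul_le_mul_left _ h3))
      _ = (16 * h ^ 2) * n := by ring
      _ ≤ n * n := Nat.mul_le_mul_right _ h1
      _ = n ^ 2 := by ring
  exact (Nat.pow_le_pow_iff_left (by norm_num)).1 h4

theorem numC : NumC Nn F := by
  intro κ n hF hN
  have hg : g (F κ) ≤ κ := F_spec (by omega)
  have hm : F κ ≤ κ := F_le κ
  set m := F κ with hmdef
  have hg' : bb m (Nn (4 * beta m 0)) + 5 ≤ κ := hg
  obtain ⟨j, rfl⟩ : ∃ j, κ = j + 2 := ⟨κ - 2, by omega⟩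
  have hmono : Monotone Nn := Nn_strict.monotone
  have hbb : 4 * Nn (4 * beta m 0) ≤ bb m (Nn (4 * beta m 0)) := by
    unfold bb
    omega
  have hid : 4 * beta m 0 ≤ Nn (4 * beta m 0) := Nn_strict.le_apply
  have hτ : Nn (4 * beta m 0) ≤ Nn j := hmono (by omega)
  have hσ : Nn (bb m (Nn (4 * beta m 0))) ≤ Nn j := hmono (by omega)
  have hlow : 16 * Hb (j + 2) (Nn j) ^ 2 ≤ n := by
    have e1 : Nn (j + 2 - 1) = Nn (j + 1) := rfl
    rw [e1, Nn_succ] at hN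
    have e2 : 2 ^ (18 * m) ≤ 2 ^ (18 * (j + 3)) :=
      Nat.pow_le_pow_right (by norm_num) (by omega)
    have e3 : 2 ^ (18 * (j + 3)) * (Hb (j + 2) (Nn j)) ^ 2 * 16 < n * 2 ^ (18 * (j + 3)) :=
      calc _ < n * 2 ^ (18 * m) := by omega
        _ ≤ _ := Nat.mul_le_mul_left _ e2
    have e4 : (16 * Hb (j + 2) (Nn j) ^ 2) * 2 ^ (18 * (j + 3)) < n * 2 ^ (18 * (j + 3)) := by
      calc _ = 2 ^ (18 * (j + 3)) * (Hb (j + 2) (Nn j)) ^ 2 * 16 := by ring
        _ < _ := e3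
    exact (lt_of_mul_lt_mul_right e4 (Nat.zero_le _)).le
  have hlin : Hb (j + 2) (Nn j) ≤ n := by
    have : Hb (j + 2) (Nn j) ≤ 16 * Hb (j + 2) (Nn j) ^ 2 := by nlinarith
    omega
  have hHb : Hb (j + 2) (Nn j) =
    H (j + 2) (Nn j) + 64 * (100 * mu (j + 2) + 100) + 100 * (j + 2) + 64 := rfl
  have hmu := mu_mono hm
  refine ⟨by omega, by omega, fun b hb => ?_⟩
  refine ⟨Nat.log 2 n + 1, _, (Nat.lt_pow_succ_log_self (by norm_num) n).le, le_rfl, ?_⟩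
  refine (key (k := j + 2) (a := Nn j) hm hτ hσ hb (by omega)).trans ?_
  refine (Nat.mul_le_mul_right _ (by omega : H (j + 2) (Nn j) ≤ Hb (j + 2) (Nn j))).trans ?_
  exact fin_bd hlow (by omega)

/-- CH-NUM -/
theorem t_NUM : S_NUM :=
  ⟨Nn, F, Nn_strict, rfl, F_mono, F_tendsto, F_four, F_half, numC⟩

end Pool.Agent.W924.CH
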